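import Pool.Agent.W_MP_cac67d_h21.Fe5

namespace Pool.Agent.Results.MP_cac67d_nt.ExplicitBound

/-- Let `p < q` be primes, `s ≥ 3` and `N = (p^r-1)/(p-1) = (q^s-1)/(q-1)`, where `N` is prime or `r`
and `s` are odd. Then `p < 2^167078`, `q < 2^192863706` and `N < 2^(2^(2^34))`. -/
theorem result : ∀ p q r s : ℕ, p.Prime → q.Prime → p < q → 3 ≤ s →
    (((p ^ r - 1) / (p - 1)).Prime ∨ (Odd r ∧ Odd s)) →
    (p ^ r - 1) / (p - 1) = (q ^ s - 1) / (q - 1) →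
    p < 2 ^ 167078 ∧ q < 2 ^ 192863706 ∧ (p ^ r - 1) / (p - 1) < 2 ^ (2 ^ (2 ^ 34)) :=
  Pool.Agent.W_MP_cac67d_h21.eff_all

end Pool.Agent.Results.MP_cac67d_nt.ExplicitBound
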