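import Pool.Agent.W_MP_cac67d_h21.FinalA

namespace Pool.Agent.Results.MP_cac67d_nt.PrimeBaseBound

/-- Let `p < q` be primes, `s ≥ 3` and `N = (p^r-1)/(p-1) = (q^s-1)/(q-1)`, where `N` is prime or `r`
and `s` are odd. Then `2 q < (√p + 1)^s - (√p - 1)^s`, `10 (r - 1) < 13 s (s - 1)`,
`p ≤ 2^(r-2)` and `N < 2^(2 s^4)`. -/
theorem result : ∀ p q r s : ℕ, p.Prime → q.Prime → p < q → 3 ≤ s →
    (((p ^ r - 1) / (p - 1)).Prime ∨ (Odd r ∧ Odd s)) →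
    (p ^ r - 1) / (p - 1) = (q ^ s - 1) / (q - 1) →
    2 * (q : ℝ) < (√(p : ℝ) + 1) ^ s - (√(p : ℝ) - 1) ^ s ∧
    10 * (r - 1) < 13 * (s * (s - 1)) ∧ p ≤ 2 ^ (r - 2) ∧
    (p ^ r - 1) / (p - 1) < 2 ^ (2 * s ^ 4) :=
  Pool.Agent.W_MP_cac67d_h21.finalA

end Pool.Agent.Results.MP_cac67d_nt.PrimeBaseBound
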