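import Pool.Agent.W_MP_cac67d_h21.FinalB

namespace Pool.Agent.Results.MP_cac67d_nt.SmallExponents

/-- Let `N` be a prime with two representations `N = (p^r-1)/(p-1) = (q^s-1)/(q-1)`, `p`, `q` prime,
`r, s ≥ 3`. If one of the exponents is at most `22`, then `N = 31`. -/
theorem result : ∀ N p q r s : ℕ, N.Prime → p.Prime → q.Prime → 3 ≤ r → 3 ≤ s →
    (p, r) ≠ (q, s) → N = (p ^ r - 1) / (p - 1) → N = (q ^ s - 1) / (q - 1) →
    (r ≤ 22 ∨ s ≤ 22) → N = 31 :=
  Pool.Agent.W_MP_cac67d_h21.finalB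

end Pool.Agent.Results.MP_cac67d_nt.SmallExponents
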