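import Pool.Agent.W_cac67d_h30.Final

namespace Pool.Agent.Results.MP_cac67d_nt.WieferichCriterion

/-- Let `N` be a prime with two representations `N = (p^r-1)/(p-1) = (q^s-1)/(q-1)`, `p`, `q` prime,
`r, s ≥ 3`. If `p ∣ q^2 - 1` (for instance if `gcd(p-1, s-1) ∣ 2`, in particular always for `p = 2` and
`p = 3`), then `s ∣ q + 1` or `p^(s-1) ≡ 1` modulo `s^2`. -/
theorem result : ∀ p q r s N : ℕ, p.Prime → q.Prime → N.Prime → 3 ≤ r → 3 ≤ s →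
    (p, r) ≠ (q, s) → N = (p ^ r - 1) / (p - 1) → N = (q ^ s - 1) / (q - 1) →
    (p ∣ q ^ 2 - 1 ∨ Nat.gcd (p - 1) (s - 1) ∣ 2) →
    s ∣ q + 1 ∨ s ^ 2 ∣ p ^ (s - 1) - 1 :=
  Pool.Agent.CAC67D.final

end Pool.Agent.Results.MP_cac67d_nt.WieferichCriterion
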